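import Pool.Agent.Helper819.ZA.Base

set_option autoImplicit false
set_option linter.unusedVariables false
set_option linter.unusedSectionVars false

namespace ZA

variable {k K : Type*} [Field k] [Field K] [Algebra k K]

theorem is_of_sandwich {A R : Subalgebra k K} {O : Subring K} (h : Is A O) (hAR : A ≤ R)
    (hRO : ∀ x ∈ R, x ∈ O) : Is R O :=
  ⟨hRO, fun z hz => by
    obtain ⟨s, hs, h0, h1, h2⟩ := h.2 z hz
    exact ⟨s, hAR hs, h0, h1, hAR h2⟩⟩

namespace pow_up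

/-- job 1 -/
theorem pow_up {L : Submodule k K} {y : K} (hy : y ∈ L) {x : K} {e e' : ℕ}
    (h : x * y ^ e ∈ L ^ e) (hee : e ≤ e') : x * y ^ e' ∈ L ^ e' := by
  obtain ⟨n, rfl⟩ := Nat.exists_eq_add_of_le hee
  induction n with
  | zero => simpa using h
  | succ n ih =>
    have ih' := ih (Nat.le_add_right _ _)
    have h1 : x * y ^ (e + (n + 1)) = (x * y ^ (e + n)) * y := by
      rw [← add_assoc, pow_succ]; ring
    rw [h1, ← add_assoc, pow_succ]
    exact Submodule.mul_mem_mul ih' hy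

end pow_up

alias pow_up := pow_up.pow_up

namespace mem_adj_iff

/-- job 2 -/
theorem mem_adj_iff (L : Submodule k K) (y : K) (hy : y ∈ L) (hy0 : y ≠ 0) (x : K) :
    x ∈ adj L y ↔ ∃ e : ℕ, x * y ^ e ∈ L ^ e := by
  constructor
  · intro hx
    refine Algebra.adjoin_induction (p := fun x _ => ∃ e : ℕ, x * y ^ e ∈ L ^ e) ?_ ?_ ?_ ?_ hx
    · rintro z ⟨l, hl, rfl⟩
      refine ⟨1, ?_⟩
      rw [pow_one, pow_one, div_mul_cancel₀ _ hy0]
      exact hl
    · intro r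
      refine ⟨0, ?_⟩
      simp only [pow_zero, mul_one]
      exact Submodule.mem_one.2 ⟨r, rfl⟩
    · rintro a b _ _ ⟨e₁, h₁⟩ ⟨e₂, h₂⟩
      refine ⟨max e₁ e₂, ?_⟩
      rw [add_mul]
      exact add_mem (pow_up hy h₁ (le_max_left _ _)) (pow_up hy h₂ (le_max_right _ _))
    · rintro a b _ _ ⟨e₁, h₁⟩ ⟨e₂, h₂⟩
      refine ⟨e₁ + e₂, ?_⟩
      have e : a * b * y ^ (e₁ + e₂) = (a * y ^ e₁) * (b * y ^ e₂) := by ring
      rw [e, pow_add]
      exact Submodule.mul_mem_mul h₁ h₂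
  · rintro ⟨e, he⟩
    have key : ∀ e : ℕ, ∀ z ∈ L ^ e, z / y ^ e ∈ adj L y := by
      intro e
      induction e with
      | zero =>
        intro z hz
        rw [pow_zero] at hz
        obtain ⟨r, rfl⟩ := Submodule.mem_one.1 hz
        rw [pow_zero, div_one]
        exact Subalgebra.algebraMap_mem _ r
      | succ e ih =>
        intro z hz
        rw [pow_succ] at hz
        refine Submodule.mul_induction_on hz ?_ ?_
        · intro m hm n hn
          have e1 : m * n / y ^ (e + 1) = (m / y ^ e) * (n / y) := by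
            rw [pow_succ, div_mul_div_comm]
          rw [e1]
          exact mul_mem (ih m hm) (Algebra.subset_adjoin ⟨n, hn, rfl⟩)
        · intro a b ha hb
          rw [add_div]
          exact add_mem ha hb
    have h := key e _ he
    rwa [mul_div_assoc, div_self (pow_ne_zero e hy0), mul_one] at h

end mem_adj_iff

alias mem_adj_iff := mem_adj_iff.mem_adj_iff

namespace exists_denom

/-- job 3 -/
theorem exists_denom (L : Submodule k K) (y : K) (hy : y ∈ L) (hy0 : y ≠ 0)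
    (hfrac : ∀ z : K, ∃ a ∈ adj L y, ∃ b ∈ adj L y, b ≠ 0 ∧ z = a / b) (S : Finset K) :
    ∃ D : ℕ, ∃ H ∈ L ^ D, H ≠ 0 ∧ ∀ b ∈ S, b * H ∈ L ^ D := by
  classical
  induction S using Finset.induction_on with
  | empty =>
    refine ⟨0, 1, ?_, one_ne_zero, fun b hb => absurd hb (Finset.notMem_empty b)⟩
    rw [pow_zero]
    exact Submodule.one_le.1 le_rfl
  | insert b S hb ih =>
    obtain ⟨D, H, hH, hH0, hS⟩ := ih
    obtain ⟨a1, ha1, a2, ha2, ha20, hba⟩ := hfrac b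
    obtain ⟨e1, he1⟩ := (mem_adj_iff L y hy hy0 a1).1 ha1
    obtain ⟨e2, he2⟩ := (mem_adj_iff L y hy hy0 a2).1 ha2
    have h1 := pow_up hy he1 (le_max_left e1 e2)
    have h2 := pow_up hy he2 (le_max_right e1 e2)
    refine ⟨D + max e1 e2, H * (a2 * y ^ max e1 e2), ?_,
      mul_ne_zero hH0 (mul_ne_zero ha20 (pow_ne_zero _ hy0)), ?_⟩
    · rw [pow_add]
      exact Submodule.mul_mem_mul hH h2
    · intro c hc
      rw [pow_add]
      rcases Finset.mem_insert.1 hc with rfl | hc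
      · have e : c * (H * (a2 * y ^ max e1 e2)) = H * (a1 * y ^ max e1 e2) := by
          rw [hba]
          field_simp
        rw [e]
        exact Submodule.mul_mem_mul hH h1
      · rw [← mul_assoc]
        exact Submodule.mul_mem_mul (hS c hc) h2

end exists_denom

alias exists_denom := exists_denom.exists_denom

namespace exists_gen

/-- job 4 -/
theorem exists_gen (L : Submodule k K) (hL : L.FG) (hne : ∃ l ∈ L, l ≠ 0)
    (V : ValuationSubring K) (hV : ∀ c : k, algebraMap k K c ∈ V) :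
    ∃ y ∈ L, y ≠ 0 ∧ ∀ l ∈ L, l / y ∈ V := by
  obtain ⟨T, hT⟩ := hL
  obtain ⟨l0, hl0, hl0'⟩ := hne
  have hTne : ∃ t ∈ T, t ≠ 0 := by
    by_contra hcon
    push Not at hcon
    apply hl0'
    have h1 : L ≤ ⊥ := by
      rw [← hT, Submodule.span_le]
      intro t ht
      exact hcon t ht
    exact (Submodule.mem_bot k).1 (h1 hl0)
  obtain ⟨t0, ht0, ht0'⟩ := hTne
  obtain ⟨y, hyT, hy⟩ := Finset.exists_max_image T (fun t => V.valuation t) ⟨t0, ht0⟩
  have hy0 : y ≠ 0 := by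
    intro h
    have h1 := hy t0 ht0
    simp only [h, map_zero] at h1
    have h2 := le_zero_iff.1 h1
    exact ht0' ((Valuation.zero_iff _).1 h2)
  have hyL : y ∈ L := by
    rw [← hT]
    exact Submodule.subset_span hyT
  refine ⟨y, hyL, hy0, fun l hl => ?_⟩
  rw [← hT] at hl
  induction hl using Submodule.span_induction with
  | mem t ht =>
    rw [← ValuationSubring.valuation_le_one_iff, map_div₀]
    have h3 : 0 < V.valuation y := zero_lt_iff.2 ((Valuation.ne_zero_iff _).2 hy0)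
    rw [div_le_one₀ h3]
    exact hy t ht
  | zero =>
    rw [zero_div]
    exact V.zero_mem
  | add a b _ _ ha hb =>
    rw [add_div]
    exact V.add_mem _ _ ha hb
  | smul c a _ ha =>
    rw [Algebra.smul_def, mul_div_assoc]
    exact V.mul_mem _ _ (hV c) ha

end exists_gen

alias exists_gen := exists_gen.exists_gen

namespace adj_fg

/-- job 5 -/
theorem adj_fg (L : Submodule k K) (hL : L.FG) (y : K) : (adj L y).FG := by
  classical
  obtain ⟨T, hT⟩ := hL
  refine ⟨T.image (fun t => t / y), ?_⟩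
  apply le_antisymm
  · rw [Algebra.adjoin_le_iff]
    intro z hz
    rw [Finset.coe_image] at hz
    obtain ⟨t, ht, rfl⟩ := hz
    refine Algebra.subset_adjoin ⟨t, ?_, rfl⟩
    rw [← hT]
    exact Submodule.subset_span ht
  · unfold adj
    rw [Algebra.adjoin_le_iff]
    rintro z ⟨l, hl, rfl⟩
    rw [← hT] at hl
    refine Submodule.span_induction (p := fun l _ => l / y ∈
      Algebra.adjoin k ((T.image (fun t => t / y) : Finset K) : Set K)) ?_ ?_ ?_ ?_ hl
    · intro t ht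
      refine Algebra.subset_adjoin ?_
      rw [Finset.coe_image]
      exact ⟨t, ht, rfl⟩
    · rw [zero_div]
      exact Subalgebra.zero_mem _
    · intro a b _ _ ha hb
      rw [add_div]
      exact Subalgebra.add_mem _ ha hb
    · intro c a _ ha
      rw [Algebra.smul_def, mul_div_assoc, ← Algebra.smul_def]
      exact Subalgebra.smul_mem _ ha c

end adj_fg

alias adj_fg := adj_fg.adj_fg

namespace exists_prime_gens

theorem h170_val (V : ValuationSubring K) (x : K) (hx : x ∈ V) :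
    (x = 0 ∨ x⁻¹ ∉ V) ↔ V.valuation x < 1 := by
  constructor
  · rintro (rfl | h)
    · rw [map_zero]; exact zero_lt_one
    · rcases eq_or_ne x 0 with rfl | h0
      · rw [map_zero]; exact zero_lt_one
      · rw [← V.valuation_le_one_iff, not_le, map_inv₀] at h
        exact (one_lt_inv₀ (by rw [Valuation.pos_iff]; exact h0)).1 h
  · intro h
    rcases eq_or_ne x 0 with h0 | h0
    · exact Or.inl h0
    · refine Or.inr ?_
      rw [← V.valuation_le_one_iff, not_le, map_inv₀]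
      exact (one_lt_inv₀ (by rw [Valuation.pos_iff]; exact h0)).2 h

/-- job 6 -/
theorem exists_prime_gens (R : Subalgebra k K) (hR : R.FG) (V : ValuationSubring K)
    (hRV : ∀ x ∈ R, x ∈ V) :
    ∃ S : Finset K, (∀ f ∈ S, f ∈ R ∧ (f = 0 ∨ f⁻¹ ∉ V)) ∧
      ∀ f ∈ R, (f = 0 ∨ f⁻¹ ∉ V) → ∃ c : K → K, (∀ g, c g ∈ R) ∧ f = ∑ g ∈ S, c g * g := by
  classical
  haveI : Algebra.FiniteType k R := R.fg_iff_finiteType.1 hR
  haveI : IsNoetherianRing R := Algebra.FiniteType.isNoetherianRing k R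
  let I : Ideal R :=
    { carrier := {x | V.valuation (x : K) < 1}
      add_mem' := by
        intro a b ha hb
        simp only [Set.mem_setOf_eq] at ha hb ⊢
        rw [Subalgebra.coe_add]
        exact V.valuation.map_add_lt ha hb
      zero_mem' := by
        simp only [Set.mem_setOf_eq, ZeroMemClass.coe_zero, map_zero]
        exact zero_lt_one
      smul_mem' := by
        intro c x hx
        simp only [Set.mem_setOf_eq, smul_eq_mul] at hx ⊢
        rw [Subalgebra.coe_mul, map_mul]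
        have hc : V.valuation (c : K) ≤ 1 := (V.valuation_le_one_iff _).2 (hRV _ c.2)
        exact lt_of_le_of_lt (mul_le_of_le_one_left' hc) hx }
  have hI : ∀ x : R, x ∈ I ↔ V.valuation (x : K) < 1 := fun x => Iff.rfl
  obtain ⟨T, hT⟩ := (isNoetherianRing_iff_ideal_fg R).1 inferInstance I
  refine ⟨T.map ⟨Subtype.val, Subtype.val_injective⟩, ?_, ?_⟩
  · intro f hf
    rw [Finset.mem_map] at hf
    obtain ⟨t, ht, rfl⟩ := hf
    refine ⟨t.2, ?_⟩
    have : t ∈ I := by rw [← hT]; exact Ideal.subset_span ht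
    exact (h170_val V _ (hRV _ t.2)).2 ((hI t).1 this)
  · intro f hf hfV
    have hfI : (⟨f, hf⟩ : R) ∈ I := (hI _).2 ((h170_val V f (hRV f hf)).1 hfV)
    rw [← hT] at hfI
    obtain ⟨c, -, hc⟩ := Submodule.mem_span_finset.1 hfI
    refine ⟨fun g => if h : g ∈ R then (c ⟨g, h⟩ : K) else 0, ?_, ?_⟩
    · intro g
      simp only
      split_ifs with h
      · exact (c ⟨g, h⟩).2
      · exact R.zero_mem
    · rw [Finset.sum_map]
      have h1 : f = ((∑ a ∈ T, c a • a : R) : K) := by rw [hc]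
      rw [h1, AddSubmonoidClass.coe_finset_sum]
      refine Finset.sum_congr rfl fun t _ => ?_
      simp [t.2]

end exists_prime_gens

alias exists_prime_gens := exists_prime_gens.exists_prime_gens

namespace exists_dominated

/-- job 7 -/
theorem exists_dominated (R : Subalgebra k K) (V : ValuationSubring K)
    (hRV : ∀ x ∈ R, x ∈ V) (S : Finset K)
    (hS : ∀ f ∈ R, (f = 0 ∨ f⁻¹ ∉ V) → ∃ c : K → K, (∀ g, c g ∈ R) ∧ f = ∑ g ∈ S, c g * g)
    (O : Subring K) (hl : Lc O) (hO : Is R O) (hSO : ∀ f ∈ S, f ∈ O ∧ (f = 0 ∨ f⁻¹ ∉ O)) :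
    ∃ Z : Subring K, Lc Z ∧ Is R Z ∧ (∀ x ∈ O, x ∈ Z) ∧ Dom V Z := by
  have hRO : ∀ x ∈ R, x ∈ O := hO.1
  let Z : Subring K :=
    { carrier := {z | ∃ x ∈ R, ∃ s ∈ R, s ≠ 0 ∧ s⁻¹ ∈ V ∧ z * s = x}
      mul_mem' := by
        rintro a b ⟨x, hx, s, hs, h0, hv, he⟩ ⟨x', hx', s', hs', h0', hv', he'⟩
        refine ⟨x * x', R.mul_mem hx hx', s * s', R.mul_mem hs hs', mul_ne_zero h0 h0', ?_, ?_⟩
        · rw [mul_inv]; exact V.mul_mem _ _ hv hv'
        · rw [← he, ← he']; ring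
      one_mem' := ⟨1, R.one_mem, 1, R.one_mem, one_ne_zero, by rw [inv_one]; exact V.one_mem, by ring⟩
      add_mem' := by
        rintro a b ⟨x, hx, s, hs, h0, hv, he⟩ ⟨x', hx', s', hs', h0', hv', he'⟩
        refine ⟨x * s' + x' * s, R.add_mem (R.mul_mem hx hs') (R.mul_mem hx' hs), s * s',
          R.mul_mem hs hs', mul_ne_zero h0 h0', ?_, ?_⟩
        · rw [mul_inv]; exact V.mul_mem _ _ hv hv'
        · rw [← he, ← he']; ring
      zero_mem' := ⟨0, R.zero_mem, 1, R.one_mem, one_ne_zero, by rw [inv_one]; exact V.one_mem, by ring⟩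
      neg_mem' := by
        rintro a ⟨x, hx, s, hs, h0, hv, he⟩
        exact ⟨-x, R.neg_mem hx, s, hs, h0, hv, by rw [← he]; ring⟩ }
  have hZdef : ∀ z, z ∈ Z ↔ ∃ x ∈ R, ∃ s ∈ R, s ≠ 0 ∧ s⁻¹ ∈ V ∧ z * s = x := fun z => Iff.rfl
  have hRZ : ∀ x ∈ R, x ∈ Z := fun x hx => (hZdef x).2
    ⟨x, hx, 1, R.one_mem, one_ne_zero, by rw [inv_one]; exact V.one_mem, by ring⟩
  have hZV : ∀ z ∈ Z, z ∈ V := by
    intro z hz
    obtain ⟨x, hx, s, hs, h0, hv, he⟩ := (hZdef z).1 hz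
    have : z = x * s⁻¹ := by rw [← he]; field_simp
    rw [this]
    exact V.mul_mem _ _ (hRV x hx) hv
  have hinv : ∀ z ∈ Z, z ≠ 0 → z⁻¹ ∈ V → z⁻¹ ∈ Z := by
    intro z hz hz0 hzv
    obtain ⟨x, hx, s, hs, h0, hv, he⟩ := (hZdef z).1 hz
    have hx0 : x ≠ 0 := by rw [← he]; exact mul_ne_zero hz0 h0
    refine (hZdef _).2 ⟨s, hs, x, hx, hx0, ?_, ?_⟩
    · rw [← he, mul_inv]; exact V.mul_mem _ _ hzv hv
    · rw [← he]; field_simp
  have hVl : ∀ x ∈ V, ∀ y ∈ V, x + y ≠ 0 → (x + y)⁻¹ ∈ V →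
      (x ≠ 0 ∧ x⁻¹ ∈ V) ∨ (y ≠ 0 ∧ y⁻¹ ∈ V) := by
    intro x hx y hy hxy h
    by_cases hx0 : x = 0
    · right
      rw [hx0, zero_add] at hxy h
      exact ⟨hxy, h⟩
    by_cases hy0 : y = 0
    · left
      rw [hy0, add_zero] at hxy h
      exact ⟨hxy, h⟩
    rcases V.mem_or_inv_mem (x / y) with h1 | h1
    · right
      refine ⟨hy0, ?_⟩
      have e : y⁻¹ = (x + y)⁻¹ * (1 + x / y) := by field_simp; ring
      rw [e]
      exact V.mul_mem _ _ h (V.add_mem _ _ V.one_mem h1)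
    · left
      refine ⟨hx0, ?_⟩
      have e : x⁻¹ = (x + y)⁻¹ * (1 + (x / y)⁻¹) := by field_simp
      rw [e]
      exact V.mul_mem _ _ h (V.add_mem _ _ V.one_mem h1)
  refine ⟨Z, ?_, ?_, ?_, hZV, ?_⟩
  · intro x hx y hy hxy h
    rcases hVl x (hZV x hx) y (hZV y hy) hxy (hZV _ h) with ⟨h1, h2⟩ | ⟨h1, h2⟩
    · left; exact ⟨h1, hinv x hx h1 h2⟩
    · right; exact ⟨h1, hinv y hy h1 h2⟩
  · refine ⟨hRZ, ?_⟩
    intro z hz
    obtain ⟨x, hx, s, hs, h0, hv, he⟩ := (hZdef z).1 hz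
    refine ⟨s, hs, h0, (hZdef _).2 ⟨1, R.one_mem, s, hs, h0, hv, by field_simp⟩, ?_⟩
    rw [he]; exact hx
  · intro z hz
    obtain ⟨s, hs, h0, h1, h2⟩ := hO.2 z hz
    refine (hZdef _).2 ⟨z * s, h2, s, hs, h0, ?_, rfl⟩
    by_contra hsv
    obtain ⟨c, hc, hsum⟩ := hS s hs (Or.inr hsv)
    have key : ∀ T : Finset K, T ⊆ S → (∑ g ∈ T, c g * g ∈ O) ∧
        ((∑ g ∈ T, c g * g) = 0 ∨ (∑ g ∈ T, c g * g)⁻¹ ∉ O) := by
      classical
      intro T
      induction T using Finset.induction_on with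
      | empty => intro _; simp [O.zero_mem]
      | insert g T hg ih =>
        intro hT
        have hTS : T ⊆ S := fun a ha => hT (Finset.mem_insert_of_mem ha)
        have hgS : g ∈ S := hT (Finset.mem_insert_self g T)
        obtain ⟨i1, i2⟩ := ih hTS
        have hcg : c g * g ∈ O := O.mul_mem (hRO _ (hc g)) (hSO g hgS).1
        rw [Finset.sum_insert hg]
        refine ⟨O.add_mem hcg i1, ?_⟩
        by_contra hcon
        push_neg at hcon
        obtain ⟨hn, hi⟩ := hcon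
        rcases hl _ hcg _ i1 hn hi with ⟨a1, a2⟩ | ⟨a1, a2⟩
        · have hg0 : g ≠ 0 := right_ne_zero_of_mul a1
          have hcg0 : c g ≠ 0 := left_ne_zero_of_mul a1
          rcases (hSO g hgS).2 with b | b
          · exact hg0 b
          · apply b
            have e : g⁻¹ = c g * (c g * g)⁻¹ := by field_simp
            rw [e]
            exact O.mul_mem (hRO _ (hc g)) a2
        · rcases i2 with b | b
          · exact a1 b
          · exact b a2
    rcases (key S (Finset.Subset.refl S)).2 with b | b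
    · rw [← hsum] at b; exact h0 b
    · rw [← hsum] at b; exact b h1
  · intro x hx hxv
    by_cases hx0 : x = 0
    · rw [hx0, inv_zero]; exact Z.zero_mem
    · exact hinv x hx hx0 hxv

end exists_dominated

alias exists_dominated := exists_dominated.exists_dominated

namespace is_gen

/-- job 8 -/
theorem is_gen {A R : Subalgebra k K} {O Z : Subring K} (hO : Is A O) (hR : Is R O)
    (hZ : Is R Z) (hOZ : ∀ x ∈ O, x ∈ Z) : Is A Z := by
  refine ⟨fun x hx => hOZ x (hO.1 x hx), fun z hz => ?_⟩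
  obtain ⟨s, hs, hs0, hs1, hs2⟩ := hZ.2 z hz
  obtain ⟨t, ht, ht0, ht1, ht2⟩ := hO.2 (z * s) (hR.1 _ hs2)
  obtain ⟨t', ht', ht0', ht1', ht2'⟩ := hO.2 s (hR.1 _ hs)
  refine ⟨(s * t') * t, A.mul_mem ht2' ht, mul_ne_zero (mul_ne_zero hs0 ht0') ht0, ?_, ?_⟩
  · rw [mul_inv, mul_inv]
    exact Z.mul_mem (Z.mul_mem hs1 (hOZ _ ht1')) (hOZ _ ht1)
  · have e : z * (s * t' * t) = (z * s * t) * t' := by ring
    rw [e]
    exact A.mul_mem ht2 ht'

end is_gen

alias is_gen := is_gen.is_gen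

namespace frac_change

/-- job 9: change of the denominator in the fraction field statement -/
theorem frac_change (L : Submodule k K) (y y' : K) (hy : y ∈ L) (hy0 : y ≠ 0) (hy' : y' ∈ L)
    (hy0' : y' ≠ 0) (O : Subring K) (hO : Is (adj L y) O)
    (hfrac : ∀ z : K, ∃ a ∈ O, ∃ b ∈ O, b ≠ 0 ∧ z = a / b) :
    ∀ z : K, ∃ a ∈ adj L y', ∃ b ∈ adj L y', b ≠ 0 ∧ z = a / b := by
  intro z
  obtain ⟨a, ha, b, hb, hb0, rfl⟩ := hfrac z
  obtain ⟨s, hs, hs0, -, has⟩ := hO.2 a ha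
  obtain ⟨s', hs', hs0', -, hbs⟩ := hO.2 b hb
  obtain ⟨e1, h1⟩ := (mem_adj_iff L y hy hy0 (a * s * s')).1 ((adj L y).mul_mem has hs')
  obtain ⟨e2, h2⟩ := (mem_adj_iff L y hy hy0 (b * s' * s)).1 ((adj L y).mul_mem hbs hs)
  have h1' := pow_up hy h1 (le_max_left e1 e2)
  have h2' := pow_up hy h2 (le_max_right e1 e2)
  set e := max e1 e2 with he
  have hye : y ^ e ≠ 0 := pow_ne_zero _ hy0
  have hye' : y' ^ e ≠ 0 := pow_ne_zero _ hy0'
  refine ⟨a * s * s' * y ^ e / y' ^ e, ?_, b * s' * s * y ^ e / y' ^ e, ?_, ?_, ?_⟩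
  · refine (mem_adj_iff L y' hy' hy0' _).2 ⟨e, ?_⟩
    rw [div_mul_cancel₀ _ hye']
    exact h1'
  · refine (mem_adj_iff L y' hy' hy0' _).2 ⟨e, ?_⟩
    rw [div_mul_cancel₀ _ hye']
    exact h2'
  · exact div_ne_zero (mul_ne_zero (mul_ne_zero (mul_ne_zero hb0 hs0') hs0) hye) hye'
  · field_simp

end frac_change

alias frac_change := frac_change.frac_change

namespace common_nbhd

/-- job 10: common open neighbourhood -/
theorem common_nbhd (B R : Subalgebra k K) (hR : R.FG) (hBR : B ≤ R) (O : Subring K)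
    (hB : Is B O) (hRO : ∀ x ∈ R, x ∈ O) :
    ∃ f ∈ B, f ≠ 0 ∧ f⁻¹ ∈ O ∧ ∀ O' : Subring K, Is B O' → f⁻¹ ∈ O' → Is R O' := by
  classical
  obtain ⟨T, hT⟩ := hR
  have h1 : ∀ r ∈ T, ∃ s ∈ B, s ≠ 0 ∧ s⁻¹ ∈ O ∧ r * s ∈ B := by
    intro r hr
    exact hB.2 r (hRO r (by rw [← hT]; exact Algebra.subset_adjoin hr))
  choose! s hsB hs0 hsO hrs using h1
  refine ⟨∏ r ∈ T, s r, Subalgebra.prod_mem B hsB, Finset.prod_ne_zero_iff.mpr hs0, ?_, ?_⟩
  · rw [← Finset.prod_inv_distrib]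
    exact Subring.prod_mem O hsO
  · intro O' hO' hf
    apply is_of_sandwich hO' hBR
    have hTO : ∀ r ∈ T, r ∈ O' := by
      intro r hr
      have h2 : (s r)⁻¹ ∈ O' := by
        have h3 : (s r)⁻¹ = (∏ r ∈ T, s r)⁻¹ * ∏ r' ∈ T.erase r, s r' := by
          rw [← Finset.mul_prod_erase T s hr]
          have h4 : ∏ r' ∈ T.erase r, s r' ≠ 0 :=
            Finset.prod_ne_zero_iff.mpr (fun a ha => hs0 a (Finset.mem_of_mem_erase ha))
          have h5 := hs0 r hr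
          field_simp
        rw [h3]
        apply O'.mul_mem hf
        apply Subring.prod_mem
        intro a ha
        exact hO'.1 _ (hsB a (Finset.mem_of_mem_erase ha))
      have h6 : r = (r * s r) * (s r)⁻¹ := by
        rw [mul_assoc, mul_inv_cancel₀ (hs0 r hr), mul_one]
      rw [h6]
      exact O'.mul_mem (hO'.1 _ (hrs r hr)) h2
    intro x hx
    rw [← hT] at hx
    induction hx using Algebra.adjoin_induction with
    | mem x hx => exact hTO x hx
    | algebraMap c => exact hO'.1 _ (B.algebraMap_mem c)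
    | add x y _ _ hx hy => exact O'.add_mem hx hy
    | mul x y _ _ hx hy => exact O'.mul_mem hx hy

end common_nbhd

alias common_nbhd := common_nbhd.common_nbhd

namespace exists_forms

/-- job 11: uniform set of homogeneous forms -/
theorem exists_forms (X : Set (Subring K)) (C : Set (Subalgebra k K))
    (hX : ∀ O, O ∈ X ↔ Lc O ∧ ∃ A ∈ C, Is A O)
    (U : Set (Subring K)) (hUX : U ⊆ X)
    (hUo : ∀ O ∈ U, ∃ A ∈ C, Is A O ∧ ∃ f ∈ A, f ≠ 0 ∧ f⁻¹ ∈ O ∧
      ∀ O', Lc O' → Is A O' → f⁻¹ ∈ O' → O' ∈ U)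
    (L : Submodule k K) (hL : L.FG) (V : ValuationSubring K)
    (hV : ∀ c : k, algebraMap k K c ∈ V)
    (hVU : V.toSubring ∉ U) (hsep : ∀ O ∈ X, Dom V O → O = V.toSubring)
    (l0 : K) (hl0 : l0 ∈ L) (hl00 : l0 ≠ 0) (hgen : ∀ l ∈ L, l / l0 ∈ V)
    (y : K) (hy : y ∈ L) (hy0 : y ≠ 0) :
    ∃ (S : Finset (ℕ × K)), (∀ E ∈ S, E.2 ∈ L ^ E.1 ∧ E.2 ≠ 0 ∧ E.2 / l0 ^ E.1 ∈ V ∧
        (E.2 / l0 ^ E.1)⁻¹ ∉ V) ∧
      ∀ O ∈ U, Is (adj L y) O → ∃ E ∈ S, E.2 / y ^ E.1 ∈ O ∧ (E.2 / y ^ E.1)⁻¹ ∈ O := by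
  classical
  by_cases hyV : (y / l0)⁻¹ ∈ V
  · -- all quotients by `y` are in `V`
    have hLV : ∀ l ∈ L, l / y ∈ V := by
      intro l hl
      have h1 : l / y = (l / l0) * (y / l0)⁻¹ := by
        field_simp
      rw [h1]
      exact mul_mem (hgen l hl) hyV
    have hRV : ∀ x ∈ adj L y, x ∈ V := by
      intro x hx
      unfold adj at hx
      induction hx using Algebra.adjoin_induction with
      | mem z hz =>
        obtain ⟨l, hl, rfl⟩ := hz
        exact hLV l hl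
      | algebraMap c => exact hV c
      | add a b _ _ ha hb => exact add_mem ha hb
      | mul a b _ _ ha hb => exact mul_mem ha hb
    obtain ⟨S0, hS0, hS0g⟩ := exists_prime_gens (adj L y) (adj_fg L hL y) V hRV
    have hex : ∀ f : K, ∃ e : ℕ, f ∈ adj L y → f * y ^ e ∈ L ^ e := by
      intro f
      by_cases hf : f ∈ adj L y
      · obtain ⟨e, he⟩ := (mem_adj_iff L y hy hy0 f).mp hf
        exact ⟨e, fun _ => he⟩
      · exact ⟨0, fun h => absurd h hf⟩
    choose e he using hex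
    refine ⟨(S0.filter (fun f => f ≠ 0)).image (fun f => (e f, f * y ^ e f)), ?_, ?_⟩
    · intro E hE
      obtain ⟨f, hf, rfl⟩ := Finset.mem_image.mp hE
      obtain ⟨hfS, hf0⟩ := Finset.mem_filter.mp hf
      obtain ⟨hfR, hfV⟩ := hS0 f hfS
      have hfV' : f⁻¹ ∉ V := hfV.resolve_left hf0
      have h1 : f * y ^ e f / l0 ^ e f = f * (y / l0) ^ e f := by
        rw [div_pow, mul_div_assoc]
      have hyl : y / l0 ∈ V := hgen y hy
      have hyl0 : y / l0 ≠ 0 := div_ne_zero hy0 hl00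
      refine ⟨he f hfR, mul_ne_zero hf0 (pow_ne_zero _ hy0), ?_, ?_⟩
      · show f * y ^ e f / l0 ^ e f ∈ V
        rw [h1]
        exact mul_mem (hRV f hfR) (pow_mem hyl _)
      · show (f * y ^ e f / l0 ^ e f)⁻¹ ∉ V
        rw [h1]
        intro h2
        apply hfV'
        have h3 : f⁻¹ = (f * (y / l0) ^ e f)⁻¹ * (y / l0) ^ e f := by
          rw [mul_inv, mul_assoc, inv_mul_cancel₀ (pow_ne_zero _ hyl0), mul_one]
        rw [h3]
        exact mul_mem h2 (pow_mem hyl _)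
    · intro O hOU hO
      have hOX := (hX O).mp (hUX hOU)
      by_cases hall : ∀ f ∈ S0, f = 0 ∨ f⁻¹ ∉ O
      · exfalso
        obtain ⟨Z, hZl, hZR, hOZ, hdom⟩ := exists_dominated (adj L y) V hRV S0 hS0g O hOX.1 hO
          (fun f hf => ⟨hO.1 f (hS0 f hf).1, hall f hf⟩)
        obtain ⟨A, hA, hAO, f, hfA, hf0, hfO, hnb⟩ := hUo O hOU
        have hAZ : Is A Z := is_gen hAO hO hZR hOZ
        have hZU : Z ∈ U := hnb Z hZl hAZ (hOZ _ hfO)
        have hZV := hsep Z (hUX hZU) hdom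
        rw [hZV] at hZU
        exact hVU hZU
      · push Not at hall
        obtain ⟨f, hfS, hf0, hfO⟩ := hall
        refine ⟨(e f, f * y ^ e f), Finset.mem_image.mpr ⟨f, Finset.mem_filter.mpr ⟨hfS, hf0⟩, rfl⟩,
          ?_, ?_⟩
        · show f * y ^ e f / y ^ e f ∈ O
          rw [mul_div_cancel_right₀ _ (pow_ne_zero _ hy0)]
          exact hO.1 f (hS0 f hfS).1
        · show (f * y ^ e f / y ^ e f)⁻¹ ∈ O
          rw [mul_div_cancel_right₀ _ (pow_ne_zero _ hy0)]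
          exact hfO
  · refine ⟨{(1, y)}, ?_, ?_⟩
    · intro E hE
      rw [Finset.mem_singleton.mp hE]
      refine ⟨?_, hy0, ?_, ?_⟩
      · show y ∈ L ^ 1
        rw [pow_one]; exact hy
      · show y / l0 ^ 1 ∈ V
        rw [pow_one]; exact hgen y hy
      · show (y / l0 ^ 1)⁻¹ ∉ V
        rw [pow_one]; exact hyV
    · intro O _ _
      refine ⟨(1, y), Finset.mem_singleton_self _, ?_, ?_⟩
      · show y / y ^ 1 ∈ O
        rw [pow_one, div_self hy0]; exact one_mem O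
      · show (y / y ^ 1)⁻¹ ∈ O
        rw [pow_one, div_self hy0, inv_one]; exact one_mem O

end exists_forms

alias exists_forms := exists_forms.exists_forms

namespace finite_denoms

theorem lc_sum {ι : Type*} (O : Subring K) (hl : Lc O) (s : Finset ι) (f : ι → K)
    (hf : ∀ i ∈ s, f i ∈ O) (h0 : (∑ i ∈ s, f i) ≠ 0) (h1 : (∑ i ∈ s, f i)⁻¹ ∈ O) :
    ∃ i ∈ s, f i ≠ 0 ∧ (f i)⁻¹ ∈ O := by
  classical
  induction s using Finset.induction_on with
  | empty => simp at h0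
  | insert a s ha ih =>
    rw [Finset.sum_insert ha] at h0 h1
    have hs : ∑ i ∈ s, f i ∈ O := Subring.sum_mem O fun i hi => hf i (Finset.mem_insert_of_mem hi)
    rcases hl (f a) (hf a (Finset.mem_insert_self a s)) _ hs h0 h1 with h | h
    · exact ⟨a, Finset.mem_insert_self a s, h⟩
    · obtain ⟨i, hi, h2⟩ := ih (fun i hi => hf i (Finset.mem_insert_of_mem hi)) h.1 h.2
      exact ⟨i, Finset.mem_insert_of_mem hi, h2⟩

/-- job 12: a finite number of denominators suffices -/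
theorem finite_denoms (L : Submodule k K) (hL : L.FG) :
    ∃ T : Finset K, (∀ y ∈ T, y ∈ L ∧ y ≠ 0) ∧ ∀ O : Subring K, Lc O → ∀ y ∈ L, y ≠ 0 →
      Is (adj L y) O → ∃ y' ∈ T, Is (adj L y') O := by
  classical
  obtain ⟨T0, hT0⟩ := hL
  refine ⟨T0.filter (fun t => t ≠ 0), ?_, ?_⟩
  · intro y hy
    rw [Finset.mem_filter] at hy
    refine ⟨?_, hy.2⟩
    rw [← hT0]
    exact Submodule.subset_span hy.1
  intro O hl y hy hy0 hO
  have hyspan : y ∈ Submodule.span k (T0 : Set K) := by rw [hT0]; exact hy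
  obtain ⟨c, hc⟩ := Submodule.mem_span_finset'.1 hyspan
  have hmemadj : ∀ l ∈ L, l / y ∈ adj L y := fun l hl' => Algebra.subset_adjoin ⟨l, hl', rfl⟩
  have hTL : ∀ t ∈ T0, t ∈ L := fun t ht => by
    rw [← hT0]
    exact Submodule.subset_span ht
  have h1 : ∑ t : {x // x ∈ T0}, c t • ((t : K) / y) = 1 := by
    have h2 : ∑ t : {x // x ∈ T0}, c t • ((t : K) / y)
        = (∑ t : {x // x ∈ T0}, c t • (t : K)) / y := by
      rw [Finset.sum_div]
      refine Finset.sum_congr rfl fun t _ => ?_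
      rw [smul_div_assoc]
    rw [h2, hc, div_self hy0]
  obtain ⟨t, -, ht0, htO⟩ := lc_sum O hl Finset.univ
    (fun t : {x // x ∈ T0} => c t • ((t : K) / y))
    (fun t _ => hO.1 _ (Subalgebra.smul_mem _ (hmemadj _ (hTL _ t.2)) _))
    (by rw [h1]; exact one_ne_zero) (by rw [h1, inv_one]; exact O.one_mem)
  have htne : (t : K) ≠ 0 := by
    intro h
    apply ht0
    simp [h]
  have halg : ∀ a : k, algebraMap k K a ∈ O := fun a => hO.1 _ (Subalgebra.algebraMap_mem _ a)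
  have hinv : y / (t : K) ∈ O := by
    have h3 : y / (t : K) = algebraMap k K (c t) * (c t • ((t : K) / y))⁻¹ := by
      have hct : c t ≠ 0 := by
        intro h
        apply ht0
        simp [h]
      have hct' : algebraMap k K (c t) ≠ 0 := by
        rw [Ne, FaithfulSMul.algebraMap_eq_zero_iff]
        exact hct
      rw [Algebra.smul_def]
      field_simp
    rw [h3]
    exact O.mul_mem (halg _) htO
  have hty : (t : K) / y ∈ O := hO.1 _ (hmemadj _ (hTL _ t.2))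
  refine ⟨t, Finset.mem_filter.2 ⟨t.2, htne⟩, ?_, ?_⟩
  · intro x hx
    unfold adj at hx
    induction hx using Algebra.adjoin_induction with
    | mem x hx =>
      obtain ⟨l, hl', rfl⟩ := hx
      have : l / (t : K) = (l / y) * (y / (t : K)) := by
        field_simp
      rw [this]
      exact O.mul_mem (hO.1 _ (hmemadj l hl')) hinv
    | algebraMap r => exact halg r
    | add x y _ _ h1 h2 => exact O.add_mem h1 h2
    | mul x y _ _ h1 h2 => exact O.mul_mem h1 h2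
  · intro z hz
    obtain ⟨s, hs, hs0, hsO, hzs⟩ := hO.2 z hz
    obtain ⟨e1, he1⟩ := (mem_adj_iff L y hy hy0 s).1 hs
    obtain ⟨e2, he2⟩ := (mem_adj_iff L y hy hy0 (z * s)).1 hzs
    have g1 := pow_up hy he1 (le_max_left e1 e2)
    have g2 := pow_up hy he2 (le_max_right e1 e2)
    set e := max e1 e2 with he
    refine ⟨s * (y / (t : K)) ^ e, ?_, ?_, ?_, ?_⟩
    · rw [mem_adj_iff L (t : K) (hTL _ t.2) htne]
      refine ⟨e, ?_⟩
      have : s * (y / (t : K)) ^ e * (t : K) ^ e = s * y ^ e := by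
        rw [div_pow]
        field_simp
      rw [this]
      exact g1
    · exact mul_ne_zero hs0 (pow_ne_zero _ (div_ne_zero hy0 htne))
    · have : (s * (y / (t : K)) ^ e)⁻¹ = s⁻¹ * ((t : K) / y) ^ e := by
        rw [mul_inv, ← inv_pow, inv_div]
      rw [this]
      exact O.mul_mem hsO (O.pow_mem hty e)
    · rw [mem_adj_iff L (t : K) (hTL _ t.2) htne]
      refine ⟨e, ?_⟩
      have : z * (s * (y / (t : K)) ^ e) * (t : K) ^ e = z * s * y ^ e := by
        rw [div_pow]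
        field_simp
      rw [this]
      exact g2

end finite_denoms

alias finite_denoms := finite_denoms.finite_denoms

namespace new_system_U

/-- job 13: the new linear system, points of `U` -/
theorem new_system_U (L L' : Submodule k K) (V : ValuationSubring K) (D : ℕ) (H l0 : K)
    (hl0 : l0 ∈ L) (hl00 : l0 ≠ 0) (hgen : ∀ l ∈ L, l / l0 ∈ V) (hH0 : H ≠ 0)
    (hL' : ∀ z, z ∈ L' ↔ z ∈ L ^ D ∧ z / H ∈ V)
    (y : K) (hy : y ∈ L) (hy0 : y ≠ 0) (e n : ℕ) (E : K) (hE : E ∈ L ^ e) (hE0 : E ≠ 0)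
    (hD : n * e + 1 ≤ D)
    (hEn : (E / l0 ^ e) ^ n * (l0 ^ D / H) ∈ V) (O : Subring K) (hO : Is (adj L y) O)
    (hEO : E / y ^ e ∈ O) (hEO' : (E / y ^ e)⁻¹ ∈ O) :
    ∃ F ∈ L', F ≠ 0 ∧ Is (adj L' F) O := by
  obtain ⟨m, rfl⟩ : ∃ m, D = n * e + 1 + m := ⟨D - (n * e + 1), by omega⟩
  have hEnp : E ^ n ∈ L ^ (n * e) := by
    have := Submodule.pow_mem_pow (L ^ e) hE n
    rwa [← pow_mul, mul_comm e n] at this
  have hyl : y / l0 ∈ V := hgen y hy
  -- numerators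
  have key : ∀ l ∈ L, E ^ n * y ^ m * l ∈ L' := by
    intro l hl
    rw [hL']
    constructor
    · have h1 : E ^ n * y ^ m ∈ L ^ (n * e + m) := by
        rw [pow_add]
        exact Submodule.mul_mem_mul hEnp (Submodule.pow_mem_pow L hy m)
      have h2 : E ^ n * y ^ m * l ∈ L ^ (n * e + m) * L := Submodule.mul_mem_mul h1 hl
      have h3 : L ^ (n * e + 1 + m) = L ^ (n * e + m) * L := by
        rw [← pow_succ]; congr 1; omega
      rw [h3]; exact h2
    · have h1 : E ^ n * y ^ m * l / H =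
          (E / l0 ^ e) ^ n * (l0 ^ (n * e + 1 + m) / H) * (y / l0) ^ m * (l / l0) := by
        have : l0 ^ (n * e + 1 + m) = (l0 ^ e) ^ n * l0 * l0 ^ m := by
          rw [← pow_mul, mul_comm e n]; ring
        rw [this, div_pow, div_pow]
        field_simp
      rw [h1]
      exact V.mul_mem _ _ (V.mul_mem _ _ hEn (V.toSubring.pow_mem hyl m)) (hgen l hl)
  refine ⟨E ^ n * y ^ m * y, key y hy, mul_ne_zero (mul_ne_zero (pow_ne_zero _ hE0) (pow_ne_zero _ hy0)) hy0, ?_⟩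
  have hF0 : E ^ n * y ^ m * y ≠ 0 :=
    mul_ne_zero (mul_ne_zero (pow_ne_zero _ hE0) (pow_ne_zero _ hy0)) hy0
  refine is_of_sandwich hO ?_ ?_
  · unfold adj
    apply Algebra.adjoin_le
    rintro z ⟨l, hl, rfl⟩
    apply Algebra.subset_adjoin
    refine ⟨E ^ n * y ^ m * l, key l hl, ?_⟩
    have : E ^ n * y ^ m ≠ 0 := mul_ne_zero (pow_ne_zero _ hE0) (pow_ne_zero _ hy0)
    rw [mul_div_mul_left _ _ this]
  · intro x hx
    unfold adj at hx
    induction hx using Algebra.adjoin_induction with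
    | mem z hz =>
      obtain ⟨w, hw, rfl⟩ := hz
      have hwD := ((hL' w).1 hw).1
      have h1 : w / y ^ (n * e + 1 + m) ∈ adj L y := by
        rw [mem_adj_iff L y hy hy0]
        refine ⟨n * e + 1 + m, ?_⟩
        rw [div_mul_cancel₀ _ (pow_ne_zero _ hy0)]
        exact hwD
      have h2 := hO.1 _ h1
      have h3 : w / (E ^ n * y ^ m * y) = w / y ^ (n * e + 1 + m) * ((E / y ^ e)⁻¹) ^ n := by
        have : y ^ (n * e + 1 + m) = (y ^ e) ^ n * y * y ^ m := by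
          rw [← pow_mul, mul_comm e n]; ring
        rw [this, inv_div, div_pow]
        field_simp
      rw [h3]
      exact O.mul_mem h2 (O.pow_mem hEO' n)
    | algebraMap r => exact hO.1 _ ((adj L y).algebraMap_mem r)
    | add a b _ _ ha hb => exact O.add_mem ha hb
    | mul a b _ _ ha hb => exact O.mul_mem ha hb

end new_system_U

alias new_system_U := new_system_U.new_system_U

namespace new_system_V

/-- job 14: the new linear system, the point `V` -/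
theorem new_system_V (L L' : Submodule k K) (V : ValuationSubring K) (D : ℕ) (H : K)
    (hHD : H ∈ L ^ D) (hH0 : H ≠ 0) (hV : ∀ c : k, algebraMap k K c ∈ V)
    (hL' : ∀ z, z ∈ L' ↔ z ∈ L ^ D ∧ z / H ∈ V) (B : Subalgebra k K) (S : Finset K)
    (hBS : B = Algebra.adjoin k (S : Set K)) (hBV : ∀ x ∈ B, x ∈ V)
    (hS : ∀ b ∈ S, b * H ∈ L ^ D) :
    H ∈ L' ∧ B ≤ adj L' H ∧ ∀ x ∈ adj L' H, x ∈ V := by
  refine ⟨?_, ?_, ?_⟩
  · rw [hL']
    refine ⟨hHD, ?_⟩
    rw [div_self hH0]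
    exact V.one_mem
  · rw [hBS, Algebra.adjoin_le_iff]
    intro b hb
    have hbB : b ∈ B := by
      rw [hBS]
      exact Algebra.subset_adjoin hb
    refine Algebra.subset_adjoin ⟨b * H, ?_, (mul_div_cancel_right₀ b hH0).symm⟩
    rw [hL']
    refine ⟨hS b hb, ?_⟩
    rw [mul_div_cancel_right₀ b hH0]
    exact hBV b hbB
  · intro x hx
    unfold adj at hx
    induction hx using Algebra.adjoin_induction with
    | mem z hz =>
      obtain ⟨l, hl, rfl⟩ := hz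
      exact ((hL' l).1 hl).2
    | algebraMap r => exact hV r
    | add a b _ _ ha hb => exact V.add_mem _ _ ha hb
    | mul a b _ _ ha hb => exact V.mul_mem _ _ ha hb

end new_system_V

alias new_system_V := new_system_V.new_system_V

namespace exists_sub

/-- job 15 -/
theorem exists_sub (L : Submodule k K) (hL : L.FG) (D : ℕ) (H : K) (V : ValuationSubring K)
    (hV : ∀ c : k, algebraMap k K c ∈ V) :
    ∃ L' : Submodule k K, L'.FG ∧ ∀ z, z ∈ L' ↔ z ∈ L ^ D ∧ z / H ∈ V := by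
  refine ⟨{ carrier := {z | z ∈ L ^ D ∧ z / H ∈ V}
            add_mem' := ?_
            zero_mem' := ?_
            smul_mem' := ?_ }, ?_, fun z => Iff.rfl⟩
  · rintro a b ⟨ha, ha'⟩ ⟨hb, hb'⟩
    exact ⟨add_mem ha hb, by rw [add_div]; exact V.add_mem _ _ ha' hb'⟩
  · exact ⟨zero_mem _, by rw [zero_div]; exact V.zero_mem⟩
  · rintro c a ⟨ha, ha'⟩
    refine ⟨Submodule.smul_mem _ c ha, ?_⟩
    have : c • a / H = algebraMap k K c * (a / H) := by
      rw [Algebra.smul_def, mul_div_assoc]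
    rw [this]
    exact V.mul_mem _ _ (hV c) ha'
  · have h1 : (L ^ D).FG := hL.pow D
    haveI : Module.Finite k (L ^ D : Submodule k K) := Module.Finite.iff_fg.mpr h1
    refine Module.Finite.iff_fg.mp ?_
    exact Submodule.finiteDimensional_of_le (S₂ := L ^ D) (fun z hz => hz.1)

end exists_sub

alias exists_sub := exists_sub.exists_sub

namespace uniform_exp

/-- job 16 -/
theorem uniform_exp (S : Finset (ℕ × K)) (l0 c : K) (V : ValuationSubring K)
    (hS : ∀ E ∈ S, E.2 / l0 ^ E.1 ∈ V ∧ (E.2 / l0 ^ E.1)⁻¹ ∉ V)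
    (harch : ∀ a ∈ V, a⁻¹ ∉ V → ∀ z : K, ∃ n : ℕ, a ^ n * z ∈ V) (D0 : ℕ) :
    ∃ n D : ℕ, D0 ≤ D ∧ ∀ E ∈ S, n * E.1 + 1 ≤ D ∧ (E.2 / l0 ^ E.1) ^ n * c ∈ V := by
  classical
  have h : ∀ E : ℕ × K, ∃ n : ℕ, E ∈ S → (E.2 / l0 ^ E.1) ^ n * c ∈ V := by
    intro E
    by_cases hE : E ∈ S
    · obtain ⟨n, hn⟩ := harch _ (hS E hE).1 (hS E hE).2 c
      exact ⟨n, fun _ => hn⟩
    · exact ⟨0, fun h => absurd h hE⟩
  choose nE hnE using h
  refine ⟨S.sup nE, max D0 (S.sup fun E => S.sup nE * E.1 + 1), le_max_left _ _,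
    fun E hE => ⟨?_, ?_⟩⟩
  · exact le_trans (Finset.le_sup (f := fun E : ℕ × K => S.sup nE * E.1 + 1) hE)
      (le_max_right _ _)
  · have h1 : nE E ≤ S.sup nE := Finset.le_sup hE
    have h2 : (E.2 / l0 ^ E.1) ^ (S.sup nE) * c =
        (E.2 / l0 ^ E.1) ^ (S.sup nE - nE E) * ((E.2 / l0 ^ E.1) ^ nE E * c) := by
      rw [← mul_assoc, ← pow_add, Nat.sub_add_cancel h1]
    rw [h2]
    exact V.mul_mem _ _ (pow_mem (hS E hE).1 _) (hnE E hE)

end uniform_exp

alias uniform_exp := uniform_exp.uniform_exp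

/-- Lemma A -/
theorem lemmaA (X : Set (Subring K)) (C : Set (Subalgebra k K)) (hC : ∀ A ∈ C, A.FG)
    (hX : ∀ O, O ∈ X ↔ Lc O ∧ ∃ A ∈ C, Is A O)
    (hfr : ∀ O ∈ X, ∀ z : K, ∃ a ∈ O, ∃ b ∈ O, b ≠ 0 ∧ z = a / b)
    (U : Set (Subring K)) (hUX : U ⊆ X) (hUne : U.Nonempty)
    (hUo : ∀ O ∈ U, ∃ A ∈ C, Is A O ∧ ∃ f ∈ A, f ≠ 0 ∧ f⁻¹ ∈ O ∧
      ∀ O', Lc O' → Is A O' → f⁻¹ ∈ O' → O' ∈ U)
    (L : Submodule k K) (hL : L.FG) (hUL : ∀ O ∈ U, ∃ y ∈ L, y ≠ 0 ∧ Is (adj L y) O)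
    (V : ValuationSubring K) (hV : ∀ c : k, algebraMap k K c ∈ V)
    (hVX : V.toSubring ∈ X) (hVU : V.toSubring ∉ U)
    (harch : ∀ a ∈ V, a⁻¹ ∉ V → ∀ z : K, ∃ n : ℕ, a ^ n * z ∈ V)
    (hsep : ∀ O ∈ X, Dom V O → O = V.toSubring) :
    ∃ L' : Submodule k K, L'.FG ∧ (∀ O ∈ U, ∃ y ∈ L', y ≠ 0 ∧ Is (adj L' y) O) ∧
      ∃ A ∈ C, Is A V.toSubring ∧ ∃ f ∈ A, f ≠ 0 ∧ f⁻¹ ∈ V ∧
        ∀ O', Lc O' → Is A O' → f⁻¹ ∈ O' → ∃ y ∈ L', y ≠ 0 ∧ Is (adj L' y) O' := by
  classical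
  obtain ⟨O₀, hO₀⟩ := hUne
  obtain ⟨y₀, hy₀, hy₀0, hO₀y⟩ := hUL O₀ hO₀
  obtain ⟨l0, hl0, hl00, hgen⟩ := exists_gen L hL ⟨y₀, hy₀, hy₀0⟩ V hV
  have hfrac := frac_change L y₀ l0 hy₀ hy₀0 hl0 hl00 O₀ hO₀y (hfr O₀ (hUX hO₀))
  obtain ⟨_, A, hA, hAV⟩ := (hX _).1 hVX
  obtain ⟨S, hS⟩ := hC A hA
  obtain ⟨D0, H0, hH0, hH00, hSH⟩ := exists_denom L l0 hl0 hl00 hfrac S
  obtain ⟨T, hT, hTO⟩ := finite_denoms L hL
  have hforms := fun y (hy : y ∈ T) => exists_forms X C hX U hUX hUo L hL V hV hVU hsep l0 hl0 hl00 hgen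
    y (hT y hy).1 (hT y hy).2
  choose! F hF1 hF2 using hforms
  let 𝓔 : Finset (ℕ × K) := T.biUnion F
  have h𝓔 : ∀ E ∈ 𝓔, E.2 / l0 ^ E.1 ∈ V ∧ (E.2 / l0 ^ E.1)⁻¹ ∉ V := by
    intro E hE
    obtain ⟨y, hy, hEy⟩ := Finset.mem_biUnion.1 hE
    exact ⟨(hF1 y hy E hEy).2.2.1, (hF1 y hy E hEy).2.2.2⟩
  obtain ⟨n, D, hD0, hnD⟩ := uniform_exp 𝓔 l0 (l0 ^ D0 / H0) V h𝓔 harch D0
  let H : K := H0 * l0 ^ (D - D0)
  have hHne : H ≠ 0 := mul_ne_zero hH00 (pow_ne_zero _ hl00)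
  have hpow : ∀ x ∈ L ^ D0, x * l0 ^ (D - D0) ∈ L ^ D := by
    intro x hx
    have h2 : l0 ^ (D - D0) ∈ L ^ (D - D0) := Submodule.pow_mem_pow L hl0 _
    have h3 := Submodule.mul_mem_mul hx h2
    rwa [← pow_add, Nat.add_sub_cancel' hD0] at h3
  have hHD : H ∈ L ^ D := hpow _ hH0
  have hlH : l0 ^ D / H = l0 ^ D0 / H0 := by
    have : l0 ^ D = l0 ^ D0 * l0 ^ (D - D0) := by rw [← pow_add, Nat.add_sub_cancel' hD0]
    rw [this]
    exact mul_div_mul_right _ _ (pow_ne_zero _ hl00)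
  obtain ⟨L', hL'fg, hL'⟩ := exists_sub L hL D H V hV
  have hSA : ∀ x ∈ A, x ∈ V := hAV.1
  have hbH : ∀ b ∈ S, b * H ∈ L ^ D := by
    intro b hb
    have := hpow _ (hSH b hb)
    rwa [mul_assoc] at this
  obtain ⟨hHL', hAL', hL'V⟩ := new_system_V L L' V D H hHD hHne hV hL' A S hS.symm hSA hbH
  refine ⟨L', hL'fg, ?_, A, hA, hAV, ?_⟩
  · intro O hO
    obtain ⟨y, hy, hy0, hOy⟩ := hUL O hO
    obtain ⟨y', hy', hOy'⟩ := hTO O ((hX O).1 (hUX hO)).1 y hy hy0 hOy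
    obtain ⟨E, hE, hE1, hE2⟩ := hF2 y' hy' O hO hOy'
    have hE𝓔 : E ∈ 𝓔 := Finset.mem_biUnion.2 ⟨y', hy', hE⟩
    obtain ⟨hEL, hE0, _, _⟩ := hF1 y' hy' E hE
    obtain ⟨hnE, hnV⟩ := hnD E hE𝓔
    rw [← hlH] at hnV
    exact new_system_U L L' V D H l0 hl0 hl00 hgen hHne hL' y' (hT y' hy').1 (hT y' hy').2 E.1 n E.2
      hEL hE0 hnE hnV O hOy' hE1 hE2
  · obtain ⟨f, hf, hf0, hfV, hfO⟩ := common_nbhd A (adj L' H) (adj_fg L' hL'fg H) hAL' V.toSubring hAV hL'V
    exact ⟨f, hf, hf0, hfV, fun O' _ hO' hfO' => ⟨H, hHL', hHne, hfO O' hO' hfO'⟩⟩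

end ZA
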