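import Pool.Agent.Helper819.ZA.Base

namespace ZA

variable {k K : Type*} [Field k] [Field K] [Algebra k K]

/-- `U` is open for the charts `C` -/
def Op (C : Set (Subalgebra k K)) (U : Set (Subring K)) : Prop :=
  ∀ O ∈ U, ∃ A ∈ C, Is A O ∧ ∃ f ∈ A, f ≠ 0 ∧ f⁻¹ ∈ O ∧
      ∀ O', Lc O' → Is A O' → f⁻¹ ∈ O' → O' ∈ U

/-- the ideal of the functions whose basic open set is contained in `U` -/
def IdU (A : Subalgebra k K) (U : Set (Subring K)) : Ideal A where
  carrier := {f | (f : K) = 0 ∨ ∀ O', Lc O' → Is A O' → (f : K)⁻¹ ∈ O' → O' ∈ U}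
  zero_mem' := Or.inl rfl
  add_mem' := by
    intro f g hf hg
    by_cases h0 : ((f + g : A) : K) = 0
    · exact Or.inl h0
    · right
      intro O' hL hI hfg
      have hc : ((f + g : A) : K) = (f : K) + (g : K) := rfl
      rw [hc] at h0 hfg
      rcases hL f (hI.1 f f.2) g (hI.1 g g.2) h0 hfg with ⟨h1, h2⟩ | ⟨h1, h2⟩
      · rcases hf with hf | hf
        · exact absurd hf h1
        · exact hf O' hL hI h2
      · rcases hg with hg | hg
        · exact absurd hg h1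
        · exact hg O' hL hI h2
  smul_mem' := by
    intro a f hf
    have hc : ((a • f : A) : K) = (a : K) * (f : K) := rfl
    by_cases h0 : ((a • f : A) : K) = 0
    · exact Or.inl h0
    · right
      intro O' hL hI haf
      rw [hc] at h0 haf
      have ha : (a : K) ≠ 0 := left_ne_zero_of_mul h0
      have hf0 : (f : K) ≠ 0 := right_ne_zero_of_mul h0
      rcases hf with hf | hf
      · exact absurd hf hf0
      · apply hf O' hL hI
        have h1 : (f : K)⁻¹ = (a : K) * ((a : K) * (f : K))⁻¹ := by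
          field_simp
        rw [h1]
        exact O'.mul_mem (hI.1 a a.2) haf

theorem IdU_mono (A : Subalgebra k K) {U U' : Set (Subring K)} (h : U ⊆ U') :
    IdU A U ≤ IdU A U' := by
  intro f hf
  rcases hf with hf | hf
  · exact Or.inl hf
  · exact Or.inr fun O' h1 h2 h3 => h (hf O' h1 h2 h3)

-- TARGET
theorem exists_max (C : Set (Subalgebra k K)) (hCf : C.Finite)
    (hCn : ∀ A ∈ C, IsNoetherianRing A) (P : Set (Subring K) → Prop)
    (hPl : ∀ U, P U → ∀ O ∈ U, Lc O)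
    (hPo : ∀ U, P U → Op C U) (U0 : Set (Subring K)) (h0 : P U0) :
    ∃ U, U0 ⊆ U ∧ P U ∧ ∀ U', P U' → U ⊆ U' → U' = U := by
  haveI : Finite C := hCf.to_subtype
  haveI : ∀ A : C, WellFoundedLT (Ideal (A : Subalgebra k K))ᵒᵈ := by
    intro A
    haveI := hCn A A.2
    infer_instance
  let Φ : Set (Subring K) → (∀ A : C, (Ideal (A : Subalgebra k K))ᵒᵈ) :=
    fun U A => OrderDual.toDual (IdU (A : Subalgebra k K) U)
  have hwf : WellFounded ((· < ·) : (∀ A : C, (Ideal (A : Subalgebra k K))ᵒᵈ) → _ → Prop) :=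
    wellFounded_lt
  obtain ⟨v, ⟨U, ⟨hU0, hPU⟩, rfl⟩, hmin⟩ := hwf.has_min (Φ '' {U | U0 ⊆ U ∧ P U})
    ⟨Φ U0, U0, ⟨le_refl _, h0⟩, rfl⟩
  refine ⟨U, hU0, hPU, ?_⟩
  intro U' hPU' hUU'
  by_contra hne
  obtain ⟨O, hO', hO⟩ : ∃ O ∈ U', O ∉ U := by
    by_contra hcon
    push Not at hcon
    exact hne (Set.Subset.antisymm hcon hUU')
  refine hmin (Φ U') ⟨U', ⟨hU0.trans hUU', hPU'⟩, rfl⟩ ?_
  rw [lt_iff_le_not_ge]
  constructor
  · intro A
    exact IdU_mono (A : Subalgebra k K) hUU'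
  · intro hle
    obtain ⟨A, hA, hI, f, hf, hf0, hfO, hfU⟩ := hPo U' hPU' O hO'
    have h1 : IdU A U' ≤ IdU A U := hle ⟨A, hA⟩
    have h2 : (⟨f, hf⟩ : A) ∈ IdU A U' := Or.inr hfU
    rcases h1 h2 with h3 | h3
    · exact hf0 h3
    · exact hO (h3 O (hPl U' hPU' O hO') hI hfO)

end ZA
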