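import Mathlib

/-! Elementary layer for Lemma A of MP_d71e86_ag: local rings inside a field `K` over `k`. -/

namespace ZA

variable {k K : Type*} [Field k] [Field K] [Algebra k K]

/-- `O` is a localisation of the subalgebra `A` (elementary form). -/
def Is (A : Subalgebra k K) (O : Subring K) : Prop :=
  (∀ x ∈ A, x ∈ O) ∧ ∀ z ∈ O, ∃ s ∈ A, s ≠ 0 ∧ s⁻¹ ∈ O ∧ z * s ∈ A

/-- the subring `O` of the field `K` is local (elementary form) -/
def Lc (O : Subring K) : Prop :=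
  ∀ x ∈ O, ∀ y ∈ O, x + y ≠ 0 → (x + y)⁻¹ ∈ O → (x ≠ 0 ∧ x⁻¹ ∈ O) ∨ (y ≠ 0 ∧ y⁻¹ ∈ O)

/-- the affine chart ring `k[L / y]` of the projective model of the subspace `L` -/
def adj (L : Submodule k K) (y : K) : Subalgebra k K :=
  Algebra.adjoin k {z | ∃ l ∈ L, z = l / y}

/-- the valuation ring `V` dominates `O` -/
def Dom (V : ValuationSubring K) (O : Subring K) : Prop :=
  (∀ x ∈ O, x ∈ V) ∧ ∀ x ∈ O, x⁻¹ ∈ V → x⁻¹ ∈ O

end ZA
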